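import Pool.Agent.Helper94.YG.All
import Pool.Agent.Helper36.OC.M_GLA
import Pool.Agent.Helper1.OC.M_GLB
import Pool.Agent.Helper38.OC.M_GLC
import Pool.Agent.Helper48.OS.M_NSD

/-! # Tannakian subcategories for `n = 2 m`, `m` odd (from TwiceOdd) -/

set_option autoImplicit false

namespace Pool.Agent.Helper94.AL

open Matrix ComplexConjugate Pool.Agent.Helper94.YG
open Pool.Agent.Helper94.YF hiding StORB
open Pool.Agent.Helper89.OS Pool.Agent.Helper89.OC

/-- For `n = 2 m`, `m` odd, the object `x` of order two generates a Tannakian subcategory. -/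
theorem even_tan (I : Type) [Fintype I] [DecidableEq I] (Z : CentreData I) (m : ℕ)
    (hn : Z.n = 2 * m) (hm : Odd m) : ∃ D : I → Prop, TanSet Z D := by
  obtain ⟨x, hxo, hd, hth, hst, hN⟩ := Pool.Agent.Helper94.YG.all I Z m hn hm
  have hA : GLA Z := Helper36.OC.hGLA I Z
  have hC : GLC Z := Helper38.OC.hGLC Helper36.OC.hGLA Helper1.OC.hGLB I Z
  obtain ⟨hss, hso, -, -, -, -⟩ := Helper88.YF.hDUA I Z.toCentreRep
  have hNl : ∀ b V : I, Z.N Z.o b V ≠ 0 → b = V := by
    intro b V h
    by_contra hne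
    have h1 := Helper48.OS.N_left Z.toCentreRep hss b V
    rw [if_neg hne] at h1
    exact h (by exact_mod_cast h1)
  have hNr : ∀ a V : I, Z.N a Z.o V ≠ 0 → a = V := by
    intro a V h
    by_contra hne
    have h1 := Helper48.OS.N_right Z.toCentreRep hss a V
    rw [if_neg hne] at h1
    exact h (by exact_mod_cast h1)
  have hxx : Sf Z x x = 1 := by
    have h := hC.twist x x
    rw [hst, hth, mul_one, mul_one] at h
    rw [h, Finset.sum_eq_single Z.o]
    · rw [hN, if_pos rfl, Z.th_o, Z.d_o]
      simp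
    · intro l _ hl
      rw [hN, if_neg hl]
      simp
    · intro h
      exact absurd (Finset.mem_univ _) h
  refine ⟨fun i => i = Z.o ∨ i = x, Or.inl rfl, ⟨x, Or.inr rfl, hxo⟩, ?_, ?_, ?_, ?_⟩
  · rintro i (rfl | rfl)
    · exact Or.inl hso
    · exact Or.inr hst
  · rintro i j k (rfl | rfl) hj h
    · rw [← hNl _ _ h]
      exact hj
    · rcases hj with rfl | rfl
      · exact Or.inr (hNr _ _ h).symm
      · left
        by_contra hk
        rw [hN, if_neg hk] at h
        exact h rfl
  · rintro i (rfl | rfl)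
    · exact Z.th_o
    · exact hth
  · rintro i j (rfl | rfl) hj
    · rw [hA.Sf_symm, hA.Sf_o, Z.d_o]
      simp
    · rcases hj with rfl | rfl
      · rw [hA.Sf_o, Z.d_o]
        simp
      · rw [hxx, hd]
        simp

end Pool.Agent.Helper94.AL
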