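import Pool.Agent.Helper24.AL.St
import Pool.Agent.Helper28.PC.N3

set_option autoImplicit false

namespace Pool.Agent.Helper94.AL

open Pool.Agent.Helper24.AL
open Finset Matrix
open Pool.Agent.Helper56.SW (τ Γ I bx E Rel N Nq)

theorem fdiv (ε : ℝ) (hε : 0 < ε) : ∃ C : ℝ, 1 ≤ C ∧ ∀ n : ℕ, 1 ≤ n → τ n ≤ C * (n : ℝ) ^ ε := by
  obtain ⟨C, hC, h⟩ := Pool.Agent.Helper28.PC.N3 ε hε
  exact ⟨C, hC, h⟩

theorem hFIN (hBAD : StBAD) (hCNT : StCNT) (hTH : StTH) (hTR : StTR) : StFIN := by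
  intro r K ε hr hK hε
  have hr0 : (0:ℝ) < r := by
    have : 0 < r := by omega
    exact_mod_cast this
  obtain ⟨C0, hC0, hbad⟩ := hBAD (5 * ε / (4 * r)) (3 * ε / (2 * r)) (by positivity)
    (by
      rw [div_lt_div_iff₀ (by positivity) (by positivity)]
      nlinarith [mul_pos hε hr0])
  obtain ⟨C1, hC1, htau⟩ := fdiv (ε / (8 * r)) (by positivity)
  obtain ⟨C2, hC2, hth⟩ := hTH r K C0 (3 * ε / (2 * r)) (ε / 2) hr hK hC0 (by positivity)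
    (by positivity)
  refine ⟨C1 * C0 + C2, by positivity, ?_⟩
  intro c hc
  haveI : NeZero c := ⟨by omega⟩
  obtain ⟨Y, hYs, hYg, hYc⟩ := hCNT (5 * ε / (4 * r)) (3 * ε / (2 * r)) C0 (by positivity) hC0
    hbad c hc
  have hc1 : (1:ℝ) ≤ c := by exact_mod_cast hc
  have hc0 : (0:ℝ) < c := by linarith
  classical
  refine ⟨Finset.univ.filter (fun y : (ZMod c)ˣ => ((-y : (ZMod c)ˣ) : ZMod c).val ∈ Y), ?_, ?_⟩
  · have h1 : (Finset.univ.filter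
        (fun y : (ZMod c)ˣ => ((-y : (ZMod c)ˣ) : ZMod c).val ∈ Y)).card ≤ Y.card := by
      refine Finset.card_le_card_of_injOn (fun y : (ZMod c)ˣ => ((-y : (ZMod c)ˣ) : ZMod c).val)
        ?_ ?_
      · intro y hy
        simp only [Finset.coe_filter, Finset.mem_univ, true_and, Set.mem_setOf_eq] at hy
        exact hy
      · intro y _ y' _ h
        have h2 := ZMod.val_injective c h
        have h3 := Units.ext h2
        exact neg_injective h3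
    have h2 : ((Finset.univ.filter
        (fun y : (ZMod c)ˣ => ((-y : (ZMod c)ˣ) : ZMod c).val ∈ Y)).card : ℝ) ≤ Y.card := by
      exact_mod_cast h1
    refine h2.trans (hYc.trans ?_)
    have h3 : (c:ℝ) ^ (ε / (8 * r)) * (c:ℝ) ^ (-(5 * ε / (4 * r) / 2)) =
        (c:ℝ) ^ (-(ε / (2 * r))) := by
      rw [← Real.rpow_add hc0]
      congr 1
      field_simp
      ring
    calc τ c * C0 * (c:ℝ) ^ (-(5 * ε / (4 * r) / 2)) * (Nat.totient c : ℝ)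
        ≤ (C1 * (c:ℝ) ^ (ε / (8 * r))) * C0 * (c:ℝ) ^ (-(5 * ε / (4 * r) / 2)) *
          (Nat.totient c : ℝ) := by
          gcongr
          exact htau c hc
      _ = C1 * C0 * ((c:ℝ) ^ (ε / (8 * r)) * (c:ℝ) ^ (-(5 * ε / (4 * r) / 2))) *
          (Nat.totient c : ℝ) := by ring
      _ = C1 * C0 * (c:ℝ) ^ (-(ε / (2 * r))) * (Nat.totient c : ℝ) := by rw [h3]
      _ ≤ (C1 * C0 + C2) * (c:ℝ) ^ (-(ε / (2 * r))) * (Nat.totient c : ℝ) := by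
          gcongr
          linarith
  · intro a₁ a₂ hX H₁ H₂ hH1 hH12 hH2
    rw [hTR r c a₁ a₂ H₁ H₂ hc hH1 hH12]
    set l : ℕ := (((-(a₁ * a₂) : (ZMod c)ˣ) : ZMod c)).val with hl
    have hlY : l ∉ Y := by
      intro h
      apply hX
      simp only [Finset.mem_filter, Finset.mem_univ, true_and]
      exact h
    have hcop : Nat.Coprime l c := ZMod.val_coe_unit_coprime _
    have hlU : l ∈ Us c := by
      unfold Us
      rw [Finset.mem_filter, Finset.mem_range]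
      exact ⟨ZMod.val_lt _, hcop⟩
    have hA : 1 ≤ ⌊H₁⌋₊ := (Nat.one_le_floor_iff _).2 hH1
    have hAB : ⌊H₁⌋₊ ≤ ⌊H₂⌋₊ := Nat.floor_mono hH12
    have hH20 : 0 ≤ H₂ := by linarith
    have hAle : (⌊H₁⌋₊ : ℝ) ≤ H₁ := Nat.floor_le (by linarith)
    have hBle : (⌊H₂⌋₊ : ℝ) ≤ H₂ := Nat.floor_le hH20
    have h1 := hth c (l : ℤ) ⌊H₁⌋₊ ⌊H₂⌋₊ hc (Nat.isCoprime_iff_coprime.2 hcop) hA hAB
      (hBle.trans hH2) (hYg l hlU hlY)
    have hexp : 3 * ε / (2 * r) * r / 3 + ε / 2 = ε := by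
      field_simp
      ring
    rw [hexp] at h1
    refine h1.trans ?_
    have h2 : ((⌊H₁⌋₊ : ℝ) * ⌊H₂⌋₊) ^ r ≤ (H₁ * H₂) ^ r := by gcongr
    have h3 : (⌊H₂⌋₊ : ℝ) ^ (2 * (r : ℝ) / 3) ≤ H₂ ^ (2 * (r : ℝ) / 3) :=
      Real.rpow_le_rpow (by positivity) hBle (by positivity)
    have h4 : 0 ≤ H₁ * H₂ := mul_nonneg (by linarith) hH20
    have h5 : 0 ≤ H₂ ^ (2 * (r : ℝ) / 3) := Real.rpow_nonneg hH20 _
    calc C2 * (c:ℝ) ^ ε * (((⌊H₁⌋₊ : ℝ) * ⌊H₂⌋₊) ^ r / (c:ℝ) ^ 3 +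
          (c:ℝ) ^ ((2 * (r:ℝ) - 6) / 3) * (⌊H₂⌋₊ : ℝ) ^ (2 * (r:ℝ) / 3))
        ≤ C2 * (c:ℝ) ^ ε * ((H₁ * H₂) ^ r / (c:ℝ) ^ 3 +
          (c:ℝ) ^ ((2 * (r:ℝ) - 6) / 3) * H₂ ^ (2 * (r:ℝ) / 3)) := by gcongr
      _ ≤ (C1 * C0 + C2) * (c:ℝ) ^ ε * ((H₁ * H₂) ^ r / (c:ℝ) ^ 3 +
          (c:ℝ) ^ ((2 * (r:ℝ) - 6) / 3) * H₂ ^ (2 * (r:ℝ) / 3)) := by
          have : 0 ≤ C1 * C0 := by positivity
          gcongr
          linarith

end Pool.Agent.Helper94.AL
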